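import Pool.Agent.TH783.IS.Main

set_option autoImplicit false

/-!
# The perfect-set Vaught conjecture for graphs with one forbidden induced subgraph

Let `H` be a graph (finite or infinite). The perfect-set Vaught conjecture for the countable graphs
without induced subgraph `H` is true, even with unary predicates, if `H` is an induced subgraph of the
path with four vertices; otherwise these graphs are faithfully complete. For arbitrary families of
forbidden induced subgraphs we have: the conjecture is true if some member is an induced subgraph of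
the path with four vertices, and the class is faithfully complete if no member is bipartite, or no
complement of a member is bipartite, or no member is a split graph.
-/

namespace Pool.Agent.Results.MP_4d1b73_lc.OneForbiddenInducedSubgraph

open SimpleGraph

/-- Relational structures on `ℕ` with relations of arities `a 0, a 1, ...`. -/
abbrev Str (a : ℕ → ℕ) : Type := (i : ℕ) → (Fin (a i) → ℕ) → Bool

/-- Structures with further unary predicates. -/
abbrev UStr (a : ℕ → ℕ) : Type := Str a × (ℕ → ℕ → Bool)

/-- Isomorphism of structures. -/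
def Iso {a : ℕ → ℕ} (x y : Str a) : Prop :=
  ∃ σ : Equiv.Perm ℕ, ∀ (i : ℕ) (v : Fin (a i) → ℕ), y i (⇑σ ∘ v) = x i v

/-- Isomorphism of structures with unary predicates. -/
def UIso {a : ℕ → ℕ} (x y : UStr a) : Prop :=
  ∃ σ : Equiv.Perm ℕ, (∀ (i : ℕ) (v : Fin (a i) → ℕ), y.1 i (⇑σ ∘ v) = x.1 i v) ∧
    ∀ i u, y.2 i (σ u) = x.2 i u

/-- Binary relations on `ℕ`. -/
abbrev Rel : Type := ℕ → ℕ → Bool

/-- Binary relations with countably many unary predicates (colours). -/
abbrev URel : Type := Rel × (ℕ → ℕ → Bool)

/-- Isomorphism of binary relations. -/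
def RelIso (x y : Rel) : Prop := ∃ σ : Equiv.Perm ℕ, ∀ m n, y (σ m) (σ n) = x m n

/-- Isomorphism of binary relations with unary predicates. -/
def URelIso (x y : URel) : Prop :=
  ∃ σ : Equiv.Perm ℕ, (∀ m n, y.1 (σ m) (σ n) = x.1 m n) ∧ ∀ i u, y.2 i (σ u) = x.2 i u

/-- The perfect-set Vaught conjecture for the members of `K`: every Borel class of members of `K`,
invariant under `E`, has countably many `E`-classes or contains a continuous family, indexed by the
Cantor space, of pairwise inequivalent members. -/
def PerfectVaught {X : Type} [TopologicalSpace X] [MeasurableSpace X] (E : X → X → Prop)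
    (K : X → Prop) : Prop :=
  ∀ B : Set X, MeasurableSet B → (∀ x y, E x y → (x ∈ B ↔ y ∈ B)) → (∀ x ∈ B, K x) →
    (∃ f : ℕ → X, ∀ x ∈ B, ∃ n, E (f n) x) ∨
    (∃ g : (ℕ → Bool) → X, Continuous g ∧ (∀ c, g c ∈ B) ∧ ∀ c d, E (g c) (g d) → c = d)

/-- `K` is faithfully complete: for every invariant Borel class `B` of structures (in any countable
relational language) there are an invariant Borel class `B'` of members of `K` and a Borel map `F`
from `B'` to `B` that induces a bijection of the isomorphism types. -/
def FaithfullyComplete {Y : Type} [MeasurableSpace Y] (E : Y → Y → Prop) (K : Y → Prop) : Prop :=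
  ∀ (a : ℕ → ℕ) (B : Set (Str a)), MeasurableSet B → (∀ x y, Iso x y → (x ∈ B ↔ y ∈ B)) →
    ∃ (B' : Set Y) (F : Y → Str a), MeasurableSet B' ∧ (∀ y z, E y z → (y ∈ B' ↔ z ∈ B')) ∧
      (∀ y ∈ B', K y) ∧ Measurable F ∧ (∀ y ∈ B', F y ∈ B) ∧
      (∀ y ∈ B', ∀ z ∈ B', E y z ↔ Iso (F y) (F z)) ∧ ∀ x ∈ B, ∃ y ∈ B', Iso x (F y)

/-- The full perfect-set Vaught conjecture, for all countable relational languages. -/
def FullVaught : Prop := ∀ a : ℕ → ℕ, PerfectVaught (Iso (a := a)) (fun _ => True)

/-- The relation is a (symmetric and irreflexive) graph that contains none of the graphs `H i` as an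
induced subgraph. (`H ↪g G` is the type of the isomorphisms of `H` onto induced subgraphs of `G`.) -/
structure Free {ι : Type} {V : ι → Type} (H : ∀ i, SimpleGraph (V i)) (y : Rel) : Prop where
  irrefl : ∀ u, y u u = false
  symm : ∀ u v, y u v = true → y v u = true
  free : ∀ i, IsEmpty (H i ↪g SimpleGraph.fromRel fun u v => y u v = true)

/-- The dichotomy for the graphs without induced subgraphs `H i`: if `P` is true, then they satisfy
the perfect-set Vaught conjecture, even with unary predicates; if `P` is false, then they are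
faithfully complete. So the perfect-set Vaught conjecture for them is true if `P` is true and
equivalent to the full perfect-set Vaught conjecture otherwise. -/
def Dichotomy {ι : Type} {V : ι → Type} (H : ∀ i, SimpleGraph (V i)) (P : Prop) : Prop :=
  (P → PerfectVaught URelIso (fun z => Free H z.1) ∧ PerfectVaught RelIso (Free H)) ∧
  (¬ P → FaithfullyComplete RelIso (Free H)) ∧
  (PerfectVaught RelIso (Free H) ↔ P ∨ FullVaught)

/-! ### Proofs -/

private theorem pv {X : Type} [TopologicalSpace X] [MeasurableSpace X] (E : X → X → Prop)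
    (K : X → Prop) : PerfectVaught E K ↔ W889.VC.VCof True E K := by
  constructor
  · intro h B h1 h2 h3
    rcases h B h1 h2 h3 with ⟨f, hf⟩ | ⟨g, h3, h4, h5⟩
    · exact Or.inl ⟨f, hf⟩
    · exact Or.inr ⟨g, fun _ => h3, h4, h5⟩
  · intro h B h1 h2 h3
    rcases h B h1 h2 h3 with ⟨f, hf⟩ | ⟨g, h3, h4, h5⟩
    · exact Or.inl ⟨f, hf⟩
    · exact Or.inr ⟨g, h3 trivial, h4, h5⟩

/-- the relation as a structure -/
private def up (y : Rel) : Str (fun _ => 2) := W889.VC.up y

private def dn (x : Str (fun _ => 2)) : Rel := fun u v => x 0 ![u, v]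

private theorem up_apply (y : Rel) (i : ℕ) (t : Fin 2 → ℕ) :
    up y i t = if i = 0 then y (t 0) (t 1) else false := rfl

private theorem dn_up (y : Rel) : dn (up y) = y := rfl

private theorem cont_up : Continuous up := by
  refine continuous_pi fun i => continuous_pi fun t => ?_
  by_cases hi : i = 0
  · have e : (fun y : Rel => up y i t) = fun y => y (t 0) (t 1) := by
      funext y
      rw [up_apply, if_pos hi]
    show Continuous fun y : Rel => up y i t
    rw [e]
    exact (continuous_apply _).comp (continuous_apply _)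
  · have e : (fun y : Rel => up y i t) = fun _ => false := by
      funext y
      rw [up_apply, if_neg hi]
    show Continuous fun y : Rel => up y i t
    rw [e]
    exact continuous_const

private theorem cont_dn : Continuous dn :=
  continuous_pi fun u => continuous_pi fun v =>
    (continuous_apply (![u, v] : Fin 2 → ℕ)).comp (continuous_apply 0)

private theorem uiso_symm {a : ℕ → ℕ} {x y : UStr a} (h : UIso x y) : UIso y x := by
  obtain ⟨σ, h1, h2⟩ := h
  refine ⟨σ.symm, fun i v => ?_, fun i u => ?_⟩
  · have h3 := h1 i (⇑σ.symm ∘ v)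
    have h4 : ⇑σ ∘ (⇑σ.symm ∘ v) = v := funext fun j => σ.apply_symm_apply _
    rw [h4] at h3
    exact h3.symm
  · have h3 := h2 i (σ.symm u)
    rw [σ.apply_symm_apply] at h3
    exact h3.symm

private theorem urel_symm {x y : URel} (h : URelIso x y) : URelIso y x := by
  obtain ⟨σ, h1, h2⟩ := h
  refine ⟨σ.symm, fun u v => ?_, fun i u => ?_⟩
  · rw [← h1, σ.apply_symm_apply, σ.apply_symm_apply]
  · rw [← h2, σ.apply_symm_apply]

private theorem up_iso {x y : URel} (h : URelIso x y) :
    UIso (a := fun _ => 2) (up x.1, x.2) (up y.1, y.2) := by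
  obtain ⟨σ, h1, h2⟩ := h
  refine ⟨σ, fun i t => ?_, h2⟩
  show up y.1 i (⇑σ ∘ t) = up x.1 i t
  rw [up_apply, up_apply]
  by_cases hi : i = 0
  · rw [if_pos hi, if_pos hi]
    exact h1 _ _
  · rw [if_neg hi, if_neg hi]

private theorem dn_iso {x y : UStr (fun _ => 2)} (h : UIso x y) :
    URelIso (dn x.1, x.2) (dn y.1, y.2) := by
  obtain ⟨σ, h1, h2⟩ := h
  refine ⟨σ, fun u v => ?_, h2⟩
  have h3 := h1 0 ![u, v]
  have h4 : ⇑σ ∘ ![u, v] = ![σ u, σ v] := by
    funext j
    fin_cases j <;> rfl
  rw [h4] at h3
  exact h3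

private theorem up_inv {x y : UStr (fun _ => 2)} (h : UIso x y) (hx : x.1 = up (dn x.1)) :
    y.1 = up (dn y.1) := by
  obtain ⟨σ, h1, h2⟩ := h
  have e2 : ∀ v : Fin 2 → ℕ, ![v 0, v 1] = v := by
    intro v
    funext i
    fin_cases i <;> rfl
  funext i t
  rw [up_apply]
  by_cases hi : i = 0
  · subst hi
    rw [if_pos rfl]
    show y.1 0 t = y.1 0 ![t 0, t 1]
    rw [e2]
  · rw [if_neg hi]
    have h3 := h1 i (⇑σ.symm ∘ t)
    have h4 : ⇑σ ∘ (⇑σ.symm ∘ t) = t := by
      funext j
      exact σ.apply_symm_apply _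
    rw [h4] at h3
    rw [h3, hx, up_apply, if_neg hi]

/-- from structures to relations, with unary predicates -/
private theorem trU {V : Rel → Prop} {K : Str (fun _ => 2) → Prop} (hVK : ∀ y, V y → K (up y))
    (h : PerfectVaught (UIso (a := fun _ => 2)) fun x => K x.1) :
    PerfectVaught URelIso fun z => V z.1 := by
  intro B hB hBi hBV
  have hc : Continuous (fun z : UStr (fun _ => 2) => ((dn z.1, z.2) : URel)) :=
    (cont_dn.comp continuous_fst).prodMk continuous_snd
  have hstep : ∀ x y : UStr (fun _ => 2), UIso x y →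
      (x.1 = up (dn x.1) ∧ ((dn x.1, x.2) : URel) ∈ B) →
      (y.1 = up (dn y.1) ∧ ((dn y.1, y.2) : URel) ∈ B) := by
    rintro x y hxy ⟨hx1, hx2⟩
    exact ⟨up_inv hxy hx1, (hBi _ _ (dn_iso hxy)).1 hx2⟩
  have hm : MeasurableSet {x : UStr (fun _ => 2) | x.1 = up (dn x.1) ∧
      ((dn x.1, x.2) : URel) ∈ B} := by
    refine MeasurableSet.inter ?_ (hc.measurable hB)
    exact (isClosed_eq continuous_fst (cont_up.comp (cont_dn.comp continuous_fst))).measurableSet
  rcases h _ hm (fun x y hxy => ⟨hstep x y hxy, hstep y x (uiso_symm hxy)⟩)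
    (fun x hx => by
      show K x.1
      rw [hx.1]
      exact hVK _ (hBV _ hx.2)) with ⟨f, hf⟩ | ⟨g, h1, h2, h3⟩
  · left
    refine ⟨fun n => (dn (f n).1, (f n).2), fun x hx => ?_⟩
    obtain ⟨n, hn⟩ := hf (up x.1, x.2) ⟨rfl, hx⟩
    exact ⟨n, dn_iso hn⟩
  · right
    refine ⟨fun c => (dn (g c).1, (g c).2), hc.comp h1, fun c => (h2 c).2, fun c d hcd => ?_⟩
    apply h3
    have h4 := up_iso hcd
    have e : ∀ c, ((up (dn (g c).1), (g c).2) : UStr (fun _ => 2)) = g c := by
      intro c
      rw [← (h2 c).1]
    change UIso (a := fun _ => 2) (up (dn (g c).1), (g c).2) (up (dn (g d).1), (g d).2) at h4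
    rw [e, e] at h4
    exact h4

private theorem plain {V : Rel → Prop} (h : PerfectVaught URelIso fun z => V z.1) :
    PerfectVaught RelIso V := by
  intro B hB hBi hBV
  have hm : MeasurableSet {z : URel | z.1 ∈ B ∧ z.2 = fun _ _ => false} :=
    (measurable_fst hB).inter (isClosed_eq continuous_snd continuous_const).measurableSet
  have key : ∀ x y : URel, URelIso x y → (x.1 ∈ B ∧ x.2 = fun _ _ => false) →
      (y.1 ∈ B ∧ y.2 = fun _ _ => false) := by
    rintro x y ⟨σ, h1, h2⟩ ⟨h3, h4⟩
    refine ⟨(hBi _ _ ⟨σ, h1⟩).1 h3, ?_⟩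
    funext i u
    have h5 := h2 i (σ.symm u)
    rw [σ.apply_symm_apply] at h5
    rw [h5, h4]
  rcases h _ hm (fun x y hxy => ⟨key x y hxy, key y x (urel_symm hxy)⟩)
    (fun x hx => hBV _ hx.1) with ⟨f, hf⟩ | ⟨g, h1, h2, h3⟩
  · left
    refine ⟨fun n => (f n).1, fun x hx => ?_⟩
    obtain ⟨n, σ, h1, -⟩ := hf (x, fun _ _ => false) ⟨hx, rfl⟩
    exact ⟨n, σ, h1⟩
  · right
    refine ⟨fun c => (g c).1, continuous_fst.comp h1, fun c => (h2 c).1, ?_⟩
    rintro c d ⟨σ, h4⟩
    refine h3 c d ⟨σ, h4, fun i u => ?_⟩
    rw [(h2 c).2, (h2 d).2]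

private theorem dich_of {ι : Type} {V : ι → Type} {H : ∀ i, SimpleGraph (V i)} {P : Prop}
    {K : Str (fun _ => 2) → Prop} (hK : PerfectVaught (UIso (a := fun _ => 2)) fun x => K x.1)
    (h1 : P → ∀ y, Free H y → K (up y)) (h2 : ¬ P → W889.VC.Faithful W889.VC.BIso (Free H)) :
    Dichotomy H P := by
  have k1 : P → PerfectVaught URelIso fun z => Free H z.1 := fun hP => trU (h1 hP) hK
  have k2 : P → PerfectVaught RelIso (Free H) := fun hP => plain (k1 hP)
  refine ⟨fun hP => ⟨k1 hP, k2 hP⟩, h2, ?_, ?_⟩
  · intro h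
    by_cases hP : P
    · exact Or.inl hP
    · right
      intro a
      rw [pv] at h ⊢
      exact (h2 hP).vaught True h a
  · rintro (h | h)
    · exact k2 h
    · have h3 := h fun _ => 2
      rw [pv] at h3 ⊢
      exact W889.VC.down_bin True _ (fun _ => True) (fun _ _ => trivial) h3

private theorem adj_iff {y : Rel} (h1 : ∀ u, y u u = false) (h2 : ∀ u v, y u v = true → y v u = true)
    (u v : ℕ) : (SimpleGraph.fromRel fun u v => y u v = true).Adj u v ↔ y u v = true := by
  rw [SimpleGraph.fromRel_adj]
  constructor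
  · rintro ⟨-, h | h⟩
    · exact h
    · exact h2 _ _ h
  · intro h
    refine ⟨fun e => ?_, Or.inl h⟩
    rw [e, h1] at h
    exact absurd h (by decide)

/-- the graph of the complement -/
private theorem comp_adj {y : Rel} (h1 : ∀ u, y u u = false)
    (h2 : ∀ u v, y u v = true → y v u = true) :
    (SimpleGraph.fromRel fun u v => W889.VC.comp y u v = true) =
      (SimpleGraph.fromRel fun u v => y u v = true)ᶜ := by
  have hc := W889.VC.comp_graph (y := y) ⟨h1, h2⟩
  ext u v
  rw [adj_iff hc.irrefl hc.symm, SimpleGraph.compl_adj, adj_iff h1 h2]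
  unfold W889.VC.comp
  by_cases h : u = v
  · simp [h]
  · simp [h]

private theorem free_compl {ι : Type} {V : ι → Type} {H : ∀ i, SimpleGraph (V i)} {y : Rel}
    (hy : Free H y) : Free (fun i => (H i)ᶜ) (W889.VC.comp y) := by
  have hc := W889.VC.comp_graph (y := y) ⟨hy.irrefl, hy.symm⟩
  refine ⟨hc.irrefl, hc.symm, fun i => ⟨fun e => ?_⟩⟩
  rw [comp_adj hy.irrefl hy.symm] at e
  refine (hy.free i).false ⟨e.toEmbedding, ?_⟩
  intro u v
  have h := e.map_rel_iff (a := u) (b := v)
  rw [SimpleGraph.compl_adj, SimpleGraph.compl_adj] at h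
  show (SimpleGraph.fromRel fun u v => y u v = true).Adj (e u) (e v) ↔ (H i).Adj u v
  have hne : e u ≠ e v ↔ u ≠ v := e.injective.ne_iff
  rw [hne] at h
  by_cases huv : u = v
  · subst huv
    simp
  · have h3 := not_congr h
    simp only [huv, ne_eq, not_false_eq_true, true_and, not_not] at h3
    exact h3

/-- graphs without induced `P_4` -/
private theorem p4_all : PerfectVaught (UIso (a := fun _ => 2)) (fun x =>
    MP_5df2c5_lc.ModularDecomposition.PrimeQuotientsIn (fun _ => False) x.1) :=
  (MP_5df2c5_lc.ModularDecomposition.result (fun _ => 2) (fun _ => by norm_num) (fun _ => False)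
    (by
      intro B _ _ hF
      left
      exact ⟨fun _ => (fun _ _ => false, fun _ _ => false), fun x hx => (hF x hx).elim⟩)).1

private theorem ifree_iff {V : Type} {H : SimpleGraph V} {y : Rel} :
    Free (fun _ : Unit => H) y ↔ TH783.IS.IFree H y := by
  constructor
  · intro h
    refine ⟨h.irrefl, h.symm, ?_⟩
    rintro ⟨f, hf, hf'⟩
    exact (h.free ()).false ⟨⟨f, hf⟩, fun {u v} => (adj_iff h.irrefl h.symm _ _).trans (hf' u v)⟩
  · intro h
    refine ⟨h.irrefl, h.symm, fun _ => ⟨fun e => h.free ⟨e, e.injective, fun u v => ?_⟩⟩⟩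
    exact (adj_iff h.irrefl h.symm _ _).symm.trans e.map_rel_iff

/-- **Vaught's conjecture for graphs with one forbidden induced subgraph.** (1) The graphs without
induced subgraph `H` satisfy the perfect-set Vaught conjecture, even with unary predicates, if `H` is
an induced subgraph of the path with four vertices, and otherwise they are faithfully complete.
(2) The graphs without induced subgraphs `H i` (any family of graphs) satisfy the perfect-set Vaught
conjecture, even with unary predicates, if some `H i` is an induced subgraph of the path with four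
vertices; they are faithfully complete if no `H i` is bipartite, or no complement of an `H i` is
bipartite, or no `H i` is a split graph. -/
theorem result :
    (∀ (V : Type) (H : SimpleGraph V),
      Dichotomy (fun _ : Unit => H) (Nonempty (H ↪g SimpleGraph.pathGraph 4))) ∧
    (∀ (ι : Type) (V : ι → Type) (H : ∀ i, SimpleGraph (V i)),
      ((∃ i, Nonempty (H i ↪g SimpleGraph.pathGraph 4)) →
        PerfectVaught URelIso (fun z => Free H z.1) ∧ PerfectVaught RelIso (Free H)) ∧
      (((∀ i, ¬ (H i).IsBipartite) ∨ (∀ i, ¬ (H i)ᶜ.IsBipartite) ∨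
        (∀ i, ¬ ∃ A : Set (V i), (H i).IsClique A ∧ (H i).IsIndepSet Aᶜ)) →
      FaithfullyComplete RelIso (Free H))) := by
  refine ⟨?_, ?_⟩
  · intro V H
    refine dich_of p4_all (fun hP y hy => ?_) fun hP => ?_
    · exact W889.VC.p4_quot (TH783.IS.of_path hP (ifree_iff.1 hy))
    · exact (TH783.IS.neg hP).mono fun y hy => ifree_iff.2 hy
  · intro ι V H
    refine ⟨?_, fun h => ?_⟩
    · rintro ⟨i, hi⟩
      have h1 : PerfectVaught URelIso fun z => Free H z.1 := trU (fun y hy =>
        W889.VC.p4_quot (TH783.IS.of_path (y := y) hi (ifree_iff.1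
          ⟨hy.irrefl, hy.symm, fun _ => hy.free i⟩))) p4_all
      exact ⟨h1, plain h1⟩
    have h' : W889.VC.Faithful W889.VC.BIso (Free H) := by
      rcases h with h | h | h
      · refine W889.VC.target_Bip.faithful.mono ?_
        rintro y ⟨hg, A, hA⟩
        refine ⟨hg.irrefl, hg.symm, fun i => ⟨fun e => h i ?_⟩⟩
        classical
        refine ⟨⟨fun v => if A (e v) then 0 else 1, ?_⟩⟩
        intro u v huv
        have h1 := hA _ _ ((adj_iff hg.irrefl hg.symm _ _).1 (e.map_rel_iff.2 huv))
        rw [SimpleGraph.top_adj]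
        by_cases h2 : A (e v)
        · have h3 : ¬ A (e u) := fun h4 => h1.1 h4 h2
          simp [h2, h3]
        · have h3 : A (e u) := h1.2 h2
          simp [h2, h3]
      · refine (W889.VC.faithful_compl (fun y hy => hy.1) W889.VC.target_Bip.faithful).mono ?_
        rintro y ⟨hg0, hg, A, hA⟩
        have key : Free (fun i => (H i)ᶜ) (W889.VC.comp y) := by
          refine ⟨hg.irrefl, hg.symm, fun i => ⟨fun e => h i ?_⟩⟩
          classical
          refine ⟨⟨fun v => if A (e v) then 0 else 1, ?_⟩⟩
          intro u v huv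
          have h1 := hA _ _ ((adj_iff hg.irrefl hg.symm _ _).1 (e.map_rel_iff.2 huv))
          rw [SimpleGraph.top_adj]
          by_cases h2 : A (e v)
          · have h3 : ¬ A (e u) := fun h4 => h1.1 h4 h2
            simp [h2, h3]
          · have h3 : A (e u) := h1.2 h2
            simp [h2, h3]
        have h4 := free_compl key
        have e1 : W889.VC.comp (W889.VC.comp y) = y := by
          funext u v
          unfold W889.VC.comp
          by_cases huv : u = v
          · rw [if_pos huv, huv, hg0.irrefl]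
          · rw [if_neg huv, if_neg huv, Bool.not_not]
        rw [e1] at h4
        have e2 : (fun i => ((H i)ᶜ)ᶜ) = H := by
          funext i
          exact compl_compl (H i)
        rw [e2] at h4
        exact h4
      · refine W889.VC.target_Split.faithful.mono ?_
        rintro y ⟨hg, A, hA, hA'⟩
        refine ⟨hg.irrefl, hg.symm, fun i => ⟨fun e => h i ?_⟩⟩
        refine ⟨{v | A (e v)}, fun u hu v hv huv => ?_, fun u hu v hv huv h1 => ?_⟩
        · exact e.map_rel_iff.1 ((adj_iff hg.irrefl hg.symm _ _).2
            (hA _ _ hu hv fun h2 => huv (e.injective h2)))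
        · have h2 := (adj_iff hg.irrefl hg.symm _ _).1 (e.map_rel_iff.2 h1)
          rw [hA' _ _ hu hv] at h2
          exact absurd h2 (by decide)
    exact h'

end Pool.Agent.Results.MP_4d1b73_lc.OneForbiddenInducedSubgraph
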